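import Mathlib

set_option autoImplicit false

/-!
A consequence of Descartes' rule of signs: fewnomials with prescribed positive roots.
-/

namespace Pool.Agent.H938R2

open Polynomial

theorem signVariations_lt_card_support : ∀ (c : ℕ) (g : ℝ[X]), g ≠ 0 → g.support.card = c →
    g.signVariations < g.support.card := by
  intro c
  induction c with
  | zero =>
    intro g hg hc
    exact absurd (card_support_eq_zero.mp hc) hg
  | succ c ih =>
    intro g hg hc
    have h1 := signVariations_le_eraseLead_succ g
    have h2 := card_support_eraseLead_add_one hg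
    by_cases h0 : g.eraseLead = 0
    · have h3 : g = monomial g.natDegree g.leadingCoeff := by
        conv_lhs => rw [← eraseLead_add_monomial_natDegree_leadingCoeff g, h0, zero_add]
      rw [h3, signVariations_monomial, ← h3]
      omega
    · have := ih g.eraseLead h0 (by omega)
      omega

/-- A real polynomial with at most `∑ m i` terms which vanishes to order `m i` at distinct positive
`t i` is zero. -/
theorem real_fewnomial {ι : Type*} [Fintype ι] (t : ι → ℝ) (ht : Function.Injective t)
    (htpos : ∀ i, 0 < t i) (m : ι → ℕ) (g : ℝ[X]) (hg : ∀ i, (X - C (t i)) ^ m i ∣ g)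
    (hcard : g.support.card ≤ ∑ i, m i) : g = 0 := by
  classical
  by_contra hne
  have h1 : ∑ i, m i ≤ Multiset.countP (fun x => 0 < x) g.roots := by
    have hle : (∑ i, Multiset.replicate (m i) (t i)) ≤ g.roots := by
      rw [Multiset.le_iff_count]
      intro a
      rw [Multiset.count_sum']
      by_cases ha : ∃ i, t i = a
      · obtain ⟨i, rfl⟩ := ha
        rw [Finset.sum_eq_single i]
        · rw [Multiset.count_replicate_self, count_roots, le_rootMultiplicity_iff hne]
          exact hg i
        · intro j _ hj
          rw [Multiset.count_replicate, if_neg]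
          intro h
          exact hj (ht h)
        · simp
      · rw [Finset.sum_eq_zero]
        · exact Nat.zero_le _
        · intro j _
          rw [Multiset.count_replicate, if_neg]
          intro h
          exact ha ⟨j, h⟩
    have h2 := Multiset.countP_le_of_le (fun x : ℝ => 0 < x) hle
    refine le_trans (le_of_eq ?_) h2
    have h3 : ∀ s : Finset ι, Multiset.countP (fun x : ℝ => 0 < x)
        (∑ i ∈ s, Multiset.replicate (m i) (t i)) = ∑ i ∈ s, m i := by
      intro s
      induction s using Finset.induction_on with
      | empty => simp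
      | insert i s hi ih =>
        rw [Finset.sum_insert hi, Finset.sum_insert hi, Multiset.countP_add, ih]
        congr 1
        rw [Multiset.countP_eq_card.mpr]
        · simp
        · intro a ha
          rw [Multiset.eq_of_mem_replicate ha]
          exact htpos i
    exact (h3 Finset.univ).symm
  have h2 := roots_countP_pos_le_signVariations g
  have h3 := signVariations_lt_card_support _ g hne rfl
  omega

/-- The same for complex polynomials (with real positive `t i`). -/
theorem complex_fewnomial {ι : Type*} [Fintype ι] (t : ι → ℝ) (ht : Function.Injective t)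
    (htpos : ∀ i, 0 < t i) (m : ι → ℕ) (f : ℂ[X]) (hf : ∀ i, (X - C (t i : ℂ)) ^ m i ∣ f)
    (hcard : f.support.card ≤ ∑ i, m i) : f = 0 := by
  classical
  let conj : ℂ →+* ℂ := starRingEnd ℂ
  have hconj : ∀ i, (X - C (t i : ℂ)) ^ m i ∣ f.map conj := by
    intro i
    have h1 := Polynomial.map_dvd conj (hf i)
    rw [Polynomial.map_pow, Polynomial.map_sub, Polynomial.map_X, Polynomial.map_C] at h1
    have h2 : conj (t i : ℂ) = (t i : ℂ) := Complex.conj_ofReal (t i)
    rwa [h2] at h1
  let gr : ℝ[X] := ∑ n ∈ f.support, monomial n (f.coeff n).re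
  let gi : ℝ[X] := ∑ n ∈ f.support, monomial n (f.coeff n).im
  have hcr : ∀ n, gr.coeff n = (f.coeff n).re := by
    intro n
    simp only [gr, finset_sum_coeff, coeff_monomial]
    rw [Finset.sum_ite_eq' f.support n]
    split_ifs with h
    · rfl
    · rw [notMem_support_iff.mp h]; simp
  have hci : ∀ n, gi.coeff n = (f.coeff n).im := by
    intro n
    simp only [gi, finset_sum_coeff, coeff_monomial]
    rw [Finset.sum_ite_eq' f.support n]
    split_ifs with h
    · rfl
    · rw [notMem_support_iff.mp h]; simp
  have hsr : gr.support ⊆ f.support := by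
    intro n hn
    rw [mem_support_iff] at hn ⊢
    intro h0
    apply hn
    rw [hcr, h0]; simp
  have hsi : gi.support ⊆ f.support := by
    intro n hn
    rw [mem_support_iff] at hn ⊢
    intro h0
    apply hn
    rw [hci, h0]; simp
  have hr : gr.map Complex.ofRealHom = C (1 / 2 : ℂ) * (f + f.map conj) := by
    ext n
    rw [coeff_map, coeff_C_mul, coeff_add, coeff_map, hcr]
    apply Complex.ext
    · simp [conj]; ring
    · simp [conj]
  have hi : gi.map Complex.ofRealHom = C (-(Complex.I) / 2 : ℂ) * (f - f.map conj) := by
    ext n
    rw [coeff_map, coeff_C_mul, coeff_sub, coeff_map, hci]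
    apply Complex.ext
    · simp [conj]; ring
    · simp [conj]
  have hdr : ∀ i, (X - C (t i)) ^ m i ∣ gr := by
    intro i
    rw [← Polynomial.map_dvd_map' Complex.ofRealHom, hr]
    rw [Polynomial.map_pow, Polynomial.map_sub, Polynomial.map_X, Polynomial.map_C]
    exact Dvd.dvd.mul_left (dvd_add (hf i) (hconj i)) _
  have hdi : ∀ i, (X - C (t i)) ^ m i ∣ gi := by
    intro i
    rw [← Polynomial.map_dvd_map' Complex.ofRealHom, hi]
    rw [Polynomial.map_pow, Polynomial.map_sub, Polynomial.map_X, Polynomial.map_C]
    exact Dvd.dvd.mul_left (dvd_sub (hf i) (hconj i)) _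
  have h1 := real_fewnomial t ht htpos m gr hdr ((Finset.card_le_card hsr).trans hcard)
  have h2 := real_fewnomial t ht htpos m gi hdi ((Finset.card_le_card hsi).trans hcard)
  ext n
  rw [coeff_zero]
  apply Complex.ext
  · rw [← hcr, h1]; simp
  · rw [← hci, h2]; simp

end Pool.Agent.H938R2
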