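import Mathlib
import Pool.Agent.H938R2.General

set_option autoImplicit false

/-!
Orders of vanishing: composition with polynomial maps, and division by a function with nonzero
differential.
-/

namespace Pool.Agent.H938R2

open MvPolynomial

/-- All coefficients of degree less than `m` vanish. -/
def Low {n : ℕ} (m : ℕ) (G : MvPolynomial (Fin n) ℂ) : Prop :=
  ∀ s : Fin n →₀ ℕ, s.degree < m → coeff s G = 0

theorem vanishesToOrder_iff_low {n m : ℕ} {p : Fin n → ℂ} {F : MvPolynomial (Fin n) ℂ} :
    VanishesToOrder m p F ↔ Low m (aeval (fun j => (X j + C (p j) : MvPolynomial (Fin n) ℂ)) F) :=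
  Iff.rfl

theorem Low.add {n m : ℕ} {F G : MvPolynomial (Fin n) ℂ} (hF : Low m F) (hG : Low m G) :
    Low m (F + G) := fun s hs => by rw [coeff_add, hF s hs, hG s hs, add_zero]

theorem Low.sub {n m : ℕ} {F G : MvPolynomial (Fin n) ℂ} (hF : Low m F) (hG : Low m G) :
    Low m (F - G) := fun s hs => by rw [coeff_sub, hF s hs, hG s hs, sub_zero]

theorem Low.mono {n a b : ℕ} (hab : a ≤ b) {F : MvPolynomial (Fin n) ℂ} (hF : Low b F) :
    Low a F := fun s hs => hF s (by omega)

theorem low_zero {n : ℕ} (F : MvPolynomial (Fin n) ℂ) : Low 0 F := fun s hs => absurd hs (by omega)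

theorem Low.mul {n a b : ℕ} {F G : MvPolynomial (Fin n) ℂ} (hF : Low a F) (hG : Low b G) :
    Low (a + b) (F * G) := by
  classical
  intro s hs
  rw [coeff_mul]
  refine Finset.sum_eq_zero fun uv huv => ?_
  rw [Finset.HasAntidiagonal.mem_antidiagonal] at huv
  have hdeg : uv.1.degree + uv.2.degree = s.degree := by
    rw [← huv, map_add]
  rcases lt_or_ge uv.1.degree a with h | h
  · rw [hF _ h, zero_mul]
  · rw [hG _ (by omega), mul_zero]

theorem Low.pow {n a : ℕ} {F : MvPolynomial (Fin n) ℂ} (hF : Low a F) (k : ℕ) :
    Low (k * a) (F ^ k) := by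
  induction k with
  | zero => simpa using low_zero _
  | succ k ih =>
    rw [pow_succ, Nat.succ_mul]
    exact ih.mul hF

theorem low_prod {n : ℕ} {ι : Type*} (t : Finset ι) (f : ι → MvPolynomial (Fin n) ℂ) (a : ι → ℕ)
    (h : ∀ i ∈ t, Low (a i) (f i)) : Low (∑ i ∈ t, a i) (∏ i ∈ t, f i) := by
  classical
  induction t using Finset.induction_on with
  | empty => simpa using low_zero _
  | insert i t hi ih =>
    rw [Finset.prod_insert hi, Finset.sum_insert hi]
    exact (h i (Finset.mem_insert_self i t)).mul
      (ih fun j hj => h j (Finset.mem_insert_of_mem hj))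

theorem low_sum {n m : ℕ} {ι : Type*} (t : Finset ι) (f : ι → MvPolynomial (Fin n) ℂ)
    (h : ∀ i ∈ t, Low m (f i)) : Low m (∑ i ∈ t, f i) := by
  intro s hs
  rw [coeff_sum]
  exact Finset.sum_eq_zero fun i hi => h i hi s hs

/-- Substituting polynomials without constant term does not lower the order. -/
theorem Low.aeval {n n' m : ℕ} {G : MvPolynomial (Fin n) ℂ} (hG : Low m G)
    (ψ : Fin n → MvPolynomial (Fin n') ℂ) (hψ : ∀ i, Low 1 (ψ i)) :
    Low m (MvPolynomial.aeval ψ G) := by
  rw [G.as_sum, map_sum]
  refine low_sum _ _ fun β hβ => ?_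
  have hm : m ≤ β.degree := by
    by_contra h
    exact (mem_support_iff.mp hβ) (hG β (by omega))
  rw [aeval_monomial, Finsupp.prod_fintype _ _ (fun i => pow_zero _)]
  have h1 : Low (∑ i, β i * 1) (∏ i, ψ i ^ β i) :=
    low_prod _ _ _ fun i _ => (hψ i).pow (β i)
  have h2 : Low (0 + ∑ i, β i * 1)
      ((algebraMap ℂ (MvPolynomial (Fin n') ℂ)) (coeff β G) * ∏ i, ψ i ^ β i) :=
    (low_zero _).mul h1
  refine h2.mono ?_
  rw [Finsupp.degree_eq_sum] at hm
  simpa using hm

/-- Composition with a polynomial map does not lower the order of vanishing. -/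
theorem VanishesToOrder.comp {n n' m : ℕ} (φ : Fin n → MvPolynomial (Fin n') ℂ) (q : Fin n' → ℂ)
    {F : MvPolynomial (Fin n) ℂ} (h : VanishesToOrder m (fun i => eval q (φ i)) F) :
    VanishesToOrder m q (MvPolynomial.aeval φ F) := by
  rw [vanishesToOrder_iff_low] at h ⊢
  set T : MvPolynomial (Fin n') ℂ →ₐ[ℂ] MvPolynomial (Fin n') ℂ :=
    MvPolynomial.aeval (fun j => (X j + C (q j) : MvPolynomial (Fin n') ℂ)) with hT
  let ψ : Fin n → MvPolynomial (Fin n') ℂ := fun i => T (φ i) - C (eval q (φ i))
  have hψ : ∀ i, Low 1 (ψ i) := by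
    intro i s hs
    have hs0 : s = 0 := by
      rw [← Finsupp.degree_eq_zero_iff]; omega
    subst hs0
    have h1 : coeff 0 (T (φ i)) = eval q (φ i) := by
      have h2 : ∀ G : MvPolynomial (Fin n') ℂ, coeff 0 (T G) = eval q G := by
        intro G
        have h3 : (MvPolynomial.aeval (fun _ : Fin n' => (0 : ℂ))).comp T =
            MvPolynomial.aeval q := by
          apply MvPolynomial.algHom_ext
          intro j
          simp [hT]
        have h4 := DFunLike.congr_fun h3 G
        rw [AlgHom.comp_apply] at h4
        rw [← MvPolynomial.constantCoeff_eq, MvPolynomial.constantCoeff_eq, ← coe_aeval_eq_eval,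
          RingHom.coe_coe, ← h4]
        have h5 : ∀ H : MvPolynomial (Fin n') ℂ, coeff 0 H =
            MvPolynomial.aeval (fun _ : Fin n' => (0 : ℂ)) H := by
          intro H
          have := MvPolynomial.eval_zero' (R := ℂ) (σ := Fin n')
          rw [← MvPolynomial.constantCoeff_eq, ← this, ← coe_aeval_eq_eval, RingHom.coe_coe]
        exact h5 _
      exact h2 _
    rw [coeff_sub, h1, coeff_zero_C, sub_self]
  have h6 : T (MvPolynomial.aeval φ F) = MvPolynomial.aeval ψ (MvPolynomial.aeval
      (fun j => (X j + C (eval q (φ j)) : MvPolynomial (Fin n) ℂ)) F) := by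
    have h7 : T.comp (MvPolynomial.aeval φ) = (MvPolynomial.aeval ψ).comp (MvPolynomial.aeval
        (fun j => (X j + C (eval q (φ j)) : MvPolynomial (Fin n) ℂ))) := by
      apply MvPolynomial.algHom_ext
      intro i
      simp [ψ]
    exact DFunLike.congr_fun h7 F
  rw [h6]
  exact h.aeval ψ hψ

/-- If `A` vanishes at the origin and has a nonzero linear term, dividing by `A` lowers the order
by one. -/
theorem Low.of_mul {n m : ℕ} {A B : MvPolynomial (Fin n) ℂ} (hA : Low 1 A)
    (hA1 : ∃ j : Fin n, coeff (Finsupp.single j 1) A ≠ 0) (h : Low m (A * B)) :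
    Low (m - 1) B := by
  have key : ∀ t, t ≤ m - 1 → Low t B := by
    intro t
    induction t with
    | zero => intro _; exact low_zero _
    | succ t ih =>
      intro ht
      have hB := ih (by omega)
      set A1 := homogeneousComponent 1 A with hA1def
      set Bt := homogeneousComponent t B with hBtdef
      have hA1' : A1 ≠ 0 := by
        obtain ⟨j, hj⟩ := hA1
        intro h0
        apply hj
        have := congrArg (coeff (Finsupp.single j 1)) h0
        rw [hA1def, coeff_homogeneousComponent] at this
        simpa using this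
      have hA' : Low 2 (A - A1) := by
        intro s hs
        rw [coeff_sub, hA1def, coeff_homogeneousComponent]
        split_ifs with h1
        · rw [sub_self]
        · rw [hA s (by omega), sub_zero]
      have hB' : Low (t + 1) (B - Bt) := by
        intro s hs
        rw [coeff_sub, hBtdef, coeff_homogeneousComponent]
        split_ifs with h1
        · rw [sub_self]
        · rw [hB s (by omega), sub_zero]
      have hA1low : Low 1 A1 := by
        intro s hs
        rw [hA1def, coeff_homogeneousComponent, if_neg (by omega)]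
      have hexp : A1 * Bt = A * B - (A1 * (B - Bt) + (A - A1) * B) := by ring
      have hlow : Low (t + 2) (A1 * Bt) := by
        rw [hexp]
        refine Low.sub (h.mono (by omega)) (Low.add ?_ ?_)
        · exact (hA1low.mul hB').mono (by omega)
        · exact (hA'.mul hB).mono (by omega)
      have hprod : A1 * Bt = 0 := by
        ext s
        rw [coeff_zero]
        rcases lt_or_ge s.degree (t + 2) with hs | hs
        · exact hlow s hs
        · have hh : (A1 * Bt).IsHomogeneous (1 + t) :=
            (homogeneousComponent_isHomogeneous 1 A).mul (homogeneousComponent_isHomogeneous t B)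
          by_contra hne
          have := (isHomogeneous_iff _).mp hh s (mem_support_iff.mpr hne)
          omega
      have hBt0 : Bt = 0 := (mul_eq_zero.mp hprod).resolve_left hA1'
      rw [hBt0, sub_zero] at hB'
      exact hB'
  exact key (m - 1) le_rfl

end Pool.Agent.H938R2
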