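import Mathlib
import Pool.Agent.H938R2.Order
import Pool.Agent.H938R2.Descartes

set_option autoImplicit false

/-!
Fat points on the monomial curve `(1, t, t ^ k, t ^ (k ^ 2), ...)`: the dimension of the space of
polynomials with prescribed multiplicities at such points is bounded by eliminating one variable
at a time.
-/

namespace Pool.Agent.H938R2.Elim

open MvPolynomial

/-- The cost function after one elimination. -/
def nextCost (k : ℕ) (c : ℕ → ℕ) : ℕ → ℕ := fun e => e % k + c (e / k)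

/-- Cost functions grow at most by one at each step and tend to infinity. -/
structure IsCost (c : ℕ → ℕ) : Prop where
  step : ∀ γ, c (γ + 1) ≤ c γ + 1
  fin : ∀ D : ℕ, {e | c e ≤ D}.Finite

theorem IsCost.add {c : ℕ → ℕ} (hc : IsCost c) (γ a : ℕ) : c (γ + a) ≤ c γ + a := by
  induction a with
  | zero => simp
  | succ a ih =>
    have := hc.step (γ + a)
    have h : γ + (a + 1) = γ + a + 1 := rfl
    rw [h]
    omega

theorem isCost_id : IsCost id := ⟨fun _ => le_rfl, fun D => Set.finite_Iic D⟩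

theorem IsCost.next {c : ℕ → ℕ} (hc : IsCost c) {k : ℕ} (hk : 1 ≤ k) : IsCost (nextCost k c) := by
  constructor
  · intro γ
    unfold nextCost
    have h1 := Nat.div_add_mod γ k
    have h2 := Nat.mod_lt γ hk
    rcases Nat.lt_or_ge (γ % k + 1) k with h | h
    · have h3 : (γ + 1) % k = γ % k + 1 := by
        rw [Nat.add_mod]
        rcases Nat.lt_or_ge 1 k with h4 | h4
        · rw [Nat.mod_eq_of_lt h4, Nat.mod_eq_of_lt h]
        · omega
      have h4 : (γ + 1) / k = γ / k := by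
        have h5 := Nat.div_add_mod (γ + 1) k
        rw [h3] at h5
        have h6 : k * ((γ + 1) / k) = k * (γ / k) := by omega
        exact Nat.eq_of_mul_eq_mul_left hk h6
      rw [h3, h4]
      omega
    · have h3 : γ + 1 = k * (γ / k + 1) := by
        rw [mul_add]; omega
      rw [h3, Nat.mul_mod_right, Nat.mul_div_cancel_left _ hk]
      have := hc.step (γ / k)
      omega
  · intro D
    have h1 := (hc.fin D)
    refine Set.Finite.subset (Set.Finite.biUnion h1 (fun a _ =>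
      (Set.finite_Iio (k * a + k)))) ?_
    intro e he
    rw [Set.mem_iUnion₂]
    unfold nextCost at he
    refine ⟨e / k, ?_, ?_⟩
    · show c (e / k) ≤ D
      have : e % k + c (e / k) ≤ D := he
      omega
    · show e < k * (e / k) + k
      have h1 := Nat.div_add_mod e k
      have h2 := Nat.mod_lt e hk
      omega

theorem nextCost_le {c : ℕ → ℕ} (hc : IsCost c) {k : ℕ} (hk : 1 ≤ k) (a b : ℕ) :
    nextCost k c (b + k * a) ≤ c a + b := by
  unfold nextCost
  rw [Nat.add_mul_mod_self_left, Nat.add_mul_div_left _ _ hk]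
  have h1 := hc.add a (b / k)
  have h2 : b % k + b / k ≤ b := by
    have h3 := Nat.div_add_mod b k
    have h4 : b / k ≤ k * (b / k) := Nat.le_mul_of_pos_left _ hk
    omega
  rw [add_comm (b / k) a]
  omega

/-- The cost of an exponent. -/
def cost {r : ℕ} (c : ℕ → ℕ) (β : Fin (r + 1) →₀ ℕ) : ℕ := c (β 0) + ∑ i : Fin r, β i.succ

/-- Exponents of bounded cost. -/
def S (r : ℕ) (c : ℕ → ℕ) (D : ℤ) : Set (Fin (r + 1) →₀ ℕ) := {β | (cost c β : ℤ) ≤ D}

/-- Polynomials whose exponents have bounded cost. -/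
noncomputable def W (r : ℕ) (c : ℕ → ℕ) (D : ℤ) : Submodule ℂ (MvPolynomial (Fin (r + 1)) ℂ) :=
  restrictSupport ℂ (S r c D)

theorem mem_W {r : ℕ} {c : ℕ → ℕ} {D : ℤ} {f : MvPolynomial (Fin (r + 1)) ℂ} :
    f ∈ W r c D ↔ ∀ β ∈ f.support, (cost c β : ℤ) ≤ D := by
  rw [W, mem_restrictSupport_iff]
  rfl

theorem finite_S (r : ℕ) {c : ℕ → ℕ} (hc : IsCost c) (D : ℤ) : (S r c D).Finite := by
  have h1 : Set.InjOn (fun β : Fin (r + 1) →₀ ℕ => (β : Fin (r + 1) → ℕ)) (S r c D) :=
    fun a _ b _ h => DFunLike.coe_injective h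
  refine Set.Finite.of_finite_image ?_ h1
  refine Set.Finite.subset (Set.Finite.pi (fun i : Fin (r + 1) =>
    (Fin.cases (hc.fin D.toNat) (fun _ => Set.finite_Iic D.toNat) i :
      (Fin.cases {e | c e ≤ D.toNat} (fun _ => Set.Iic D.toNat) i : Set ℕ).Finite))) ?_
  rintro _ ⟨β, hβ, rfl⟩
  have hβ' : (cost c β : ℤ) ≤ D := hβ
  unfold cost at hβ'
  rw [Set.mem_univ_pi]
  intro i
  refine Fin.cases ?_ (fun j => ?_) i
  · show c (β 0) ≤ D.toNat
    omega
  · show β j.succ ≤ D.toNat
    have : β j.succ ≤ ∑ i : Fin r, β i.succ :=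
      Finset.single_le_sum (f := fun i : Fin r => β i.succ) (fun _ _ => Nat.zero_le _)
        (Finset.mem_univ j)
    omega

instance finite_W (r : ℕ) (c : ℕ → ℕ) [hc : Fact (IsCost c)] (D : ℤ) :
    Module.Finite ℂ (W r c D) := by
  have : Finite (S r c D) := (finite_S r hc.out D)
  exact finite_restrictSupport _

/-- The points of the monomial curve. -/
noncomputable def pt (k : ℕ → ℕ) : (r : ℕ) → ℂ → Fin (r + 1) → ℂ
  | 0, t => fun _ => t
  | r + 1, t => Fin.cons ((pt k r t 0) ^ k r) (pt k r t)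

/-- Elimination of the first variable: `X 0 ↦ X 0 ^ k`, `X (i + 1) ↦ X i`. -/
noncomputable def rho (k r : ℕ) : MvPolynomial (Fin (r + 2)) ℂ →ₐ[ℂ] MvPolynomial (Fin (r + 1)) ℂ :=
  aeval (Fin.cons (X 0 ^ k) X)

/-- The equation of the hypersurface. -/
noncomputable def hyp (k r : ℕ) : MvPolynomial (Fin (r + 2)) ℂ := X 0 - X 1 ^ k

theorem rho_hyp (k r : ℕ) : rho k r (hyp k r) = 0 := by
  have h1 : (1 : Fin (r + 2)) = (0 : Fin (r + 1)).succ := rfl
  simp only [rho, hyp, map_sub, map_pow, aeval_X, Fin.cons_zero]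
  rw [h1, Fin.cons_succ, sub_self]

theorem hyp_ne_zero (k r : ℕ) : hyp k r ≠ 0 := by
  intro h
  have h1 := congrArg (eval (Fin.cons 1 (fun _ => 0) : Fin (r + 2) → ℂ)) h
  have h2 : (1 : Fin (r + 2)) = (0 : Fin (r + 1)).succ := rfl
  rcases Nat.eq_zero_or_pos k with rfl | hk
  · have h3 := congrArg (eval (Fin.cons 0 (fun _ => 0) : Fin (r + 2) → ℂ)) h
    simp [hyp] at h3
  · simp only [hyp, map_sub, map_pow, eval_X, Fin.cons_zero, map_zero] at h1
    rw [h2, Fin.cons_succ, zero_pow (by omega), sub_zero] at h1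
    exact one_ne_zero h1

theorem hyp_dvd_of_rho {k r : ℕ} {f : MvPolynomial (Fin (r + 2)) ℂ} (hf : rho k r f = 0) :
    hyp k r ∣ f := by
  let sg : MvPolynomial (Fin (r + 1)) ℂ →ₐ[ℂ] MvPolynomial (Fin (r + 2)) ℂ :=
    aeval (fun i => X i.succ)
  let I : Ideal (MvPolynomial (Fin (r + 2)) ℂ) := Ideal.span {hyp k r}
  have h1 : ((Ideal.Quotient.mkₐ ℂ I).comp sg).comp (rho k r) = Ideal.Quotient.mkₐ ℂ I := by
    apply MvPolynomial.algHom_ext
    intro i
    refine Fin.cases ?_ (fun j => ?_) i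
    · simp only [AlgHom.comp_apply, rho, aeval_X, Fin.cons_zero, map_pow, sg]
      have h2 : hyp k r ∈ I := Ideal.subset_span rfl
      have h3 : Ideal.Quotient.mkₐ ℂ I (hyp k r) = 0 := Ideal.Quotient.eq_zero_iff_mem.mpr h2
      rw [hyp, map_sub, map_pow, sub_eq_zero] at h3
      exact h3.symm
    · simp only [AlgHom.comp_apply, rho, aeval_X, Fin.cons_succ, sg]
  have h2 := DFunLike.congr_fun h1 f
  rw [AlgHom.comp_apply, hf, map_zero] at h2
  exact Ideal.mem_span_singleton.mp (Ideal.Quotient.eq_zero_iff_mem.mp h2.symm)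

/-- The exponent of the image of a monomial. -/
noncomputable def push (k : ℕ) {r : ℕ} (β : Fin (r + 2) →₀ ℕ) : Fin (r + 1) →₀ ℕ :=
  Finsupp.tail β + Finsupp.single 0 (k * β 0)

theorem rho_monomial (k r : ℕ) (β : Fin (r + 2) →₀ ℕ) (a : ℂ) :
    rho k r (monomial β a) = monomial (push k β) a := by
  rw [rho, aeval_monomial, Finsupp.prod_fintype _ _ (fun i => pow_zero _), Fin.prod_univ_succ]
  simp only [Fin.cons_zero, Fin.cons_succ]
  rw [push, ← pow_mul]
  have h1 : (∏ i : Fin (r + 1), X i ^ β i.succ : MvPolynomial (Fin (r + 1)) ℂ) =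
      monomial (Finsupp.tail β) 1 := by
    rw [monomial_eq, Finsupp.prod_fintype _ _ (fun i => pow_zero _)]
    simp [Finsupp.tail_apply]
  rw [h1, X_pow_eq_monomial, monomial_mul, algebraMap_eq, C_mul_monomial, mul_one, mul_one,
    add_comm (Finsupp.single 0 (k * β 0)) (Finsupp.tail β)]

theorem cost_push_le {c : ℕ → ℕ} (hc : IsCost c) {k : ℕ} (hk : 1 ≤ k) {r : ℕ}
    (β : Fin (r + 2) →₀ ℕ) : cost (nextCost k c) (push k β) ≤ cost c β := by
  unfold cost
  rw [Fin.sum_univ_succ]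
  have h0 : push k β 0 = β 1 + k * β 0 := by
    simp [push, Finsupp.tail_apply]
  have h1 : ∀ i : Fin r, push k β i.succ = β i.succ.succ := by
    intro i
    simp [push, Finsupp.tail_apply]
  rw [h0]
  simp only [h1]
  have h2 := nextCost_le hc hk (β 0) (β 1)
  have h3 : β (0 : Fin (r + 1)).succ = β 1 := rfl
  rw [h3]
  omega

theorem rho_mem_W {c : ℕ → ℕ} (hc : IsCost c) {k : ℕ} (hk : 1 ≤ k) {r : ℕ} {D : ℤ}
    {f : MvPolynomial (Fin (r + 2)) ℂ} (hf : f ∈ W (r + 1) c D) :
    rho k r f ∈ W r (nextCost k c) D := by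
  rw [f.as_sum, map_sum]
  refine Submodule.sum_mem _ fun β hβ => ?_
  rw [rho_monomial, mem_W]
  intro γ hγ
  have h1 : γ = push k β := by
    have := support_monomial_subset hγ
    simpa using this
  rw [h1]
  have h2 := cost_push_le hc hk β
  have h3 := mem_W.mp hf β hβ
  have h4 : ((cost (nextCost k c) (push k β) : ℕ) : ℤ) ≤ (cost c β : ℤ) := by exact_mod_cast h2
  exact h4.trans h3

/-- Division by the equation of the hypersurface. -/
theorem mem_W_of_hyp_mul {c : ℕ → ℕ} (hc : IsCost c) {k : ℕ} (hk : 1 ≤ k) {r : ℕ} {D : ℤ}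
    {g : MvPolynomial (Fin (r + 2)) ℂ} (hf : hyp k r * g ∈ W (r + 1) c D) :
    g ∈ W (r + 1) c (D - k) := by
  classical
  rw [mem_W]
  by_contra hcon
  push Not at hcon
  obtain ⟨β0, hβ0, hβ0'⟩ := hcon
  let bad := g.support.filter (fun β => D - k < (cost c β : ℤ))
  have hne : bad.Nonempty := ⟨β0, Finset.mem_filter.mpr ⟨hβ0, hβ0'⟩⟩
  obtain ⟨β, hβ, hmax⟩ := Finset.exists_max_image bad (fun β => β 1) hne
  rw [Finset.mem_filter] at hβ
  obtain ⟨hβs, hβc⟩ := hβ
  let γ : Fin (r + 2) →₀ ℕ := Finsupp.single 1 k + β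
  have h10 : (1 : Fin (r + 2)) ≠ 0 := by simp
  have hγ0 : γ 0 = β 0 := by
    simp only [γ, Finsupp.add_apply]
    rw [Finsupp.single_eq_of_ne h10.symm, zero_add]
  have hγ1 : γ 1 = k + β 1 := by
    simp [γ]
  have hγs : ∀ i : Fin r, γ i.succ.succ = β i.succ.succ := by
    intro i
    simp only [γ, Finsupp.add_apply]
    rw [Finsupp.single_eq_of_ne, zero_add]
    intro h
    exact absurd (Fin.succ_injective _ h) (Fin.succ_ne_zero i)
  have hcostγ : cost c γ = cost c β + k := by
    unfold cost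
    rw [Fin.sum_univ_succ, Fin.sum_univ_succ, hγ0]
    simp only [hγs]
    have h3 : γ (0 : Fin (r + 1)).succ = γ 1 := rfl
    have h4 : β (0 : Fin (r + 1)).succ = β 1 := rfl
    rw [h3, h4, hγ1]
    omega
  have hcoeff0 : coeff γ (hyp k r * g) = 0 := by
    by_contra hne
    have := mem_W.mp hf γ (mem_support_iff.mpr hne)
    rw [hcostγ] at this
    push_cast at this
    omega
  have hcoeff1 : coeff γ (X 1 ^ k * g) = coeff β g := by
    rw [X_pow_eq_monomial]
    have := coeff_monomial_mul β (Finsupp.single (1 : Fin (r + 2)) k) (1 : ℂ) g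
    rw [one_mul] at this
    exact this
  rw [hyp, sub_mul, coeff_sub, hcoeff1, coeff_X_mul'] at hcoeff0
  have hβne : coeff β g ≠ 0 := mem_support_iff.mp hβs
  split_ifs at hcoeff0 with h0
  · rw [Finsupp.mem_support_iff, hγ0] at h0
    obtain ⟨δ, hδ⟩ : ∃ δ : Fin (r + 2) →₀ ℕ, δ = γ - Finsupp.single 0 1 := ⟨_, rfl⟩
    rw [← hδ] at hcoeff0
    have hmem : δ ∈ g.support := by
      rw [mem_support_iff]
      intro h
      rw [h, zero_sub, neg_eq_zero] at hcoeff0
      exact hβne hcoeff0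
    have e0 : δ 0 = β 0 - 1 := by
      rw [hδ, Finsupp.tsub_apply, hγ0]; simp
    have e1 : δ 1 = k + β 1 := by
      rw [hδ, Finsupp.tsub_apply, hγ1, Finsupp.single_eq_of_ne h10, Nat.sub_zero]
    have es : ∀ i : Fin r, δ i.succ.succ = β i.succ.succ := by
      intro i
      rw [hδ, Finsupp.tsub_apply, hγs, Finsupp.single_eq_of_ne (Fin.succ_ne_zero _), Nat.sub_zero]
    have hcost' : cost c β + k ≤ cost c δ + 1 := by
      unfold cost
      rw [Fin.sum_univ_succ, Fin.sum_univ_succ, e0]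
      simp only [es]
      have h3 : δ (0 : Fin (r + 1)).succ =
        δ 1 := rfl
      have h4 : β (0 : Fin (r + 1)).succ = β 1 := rfl
      rw [h3, h4, e1]
      have h5 := hc.step (β 0 - 1)
      rw [Nat.sub_add_cancel (Nat.pos_of_ne_zero h0)] at h5
      omega
    have hbad : δ ∈ bad := by
      rw [Finset.mem_filter]
      refine ⟨hmem, ?_⟩
      have : ((cost c β + k : ℕ) : ℤ) ≤ ((cost c δ + 1 : ℕ) : ℤ) := by
        exact_mod_cast hcost'
      push_cast at this
      have hk' : (1 : ℤ) ≤ k := by exact_mod_cast hk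
      linarith
    have := hmax _ hbad
    rw [e1] at this
    omega
  · rw [zero_sub, neg_eq_zero] at hcoeff0
    exact hβne hcoeff0

end Pool.Agent.H938R2.Elim
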