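import Mathlib
import Pool.Agent.H938R2.Elim

set_option autoImplicit false

/-!
Fat points on the monomial curve: the induction.
-/

namespace Pool.Agent.H938R2.Elim

open MvPolynomial

theorem eval_cons_pt (k : ℕ → ℕ) (r : ℕ) (t : ℂ) :
    (fun i => eval (pt k r t) ((Fin.cons (X 0 ^ k r) X :
      Fin (r + 2) → MvPolynomial (Fin (r + 1)) ℂ) i)) = pt k (r + 1) t := by
  funext i
  refine Fin.cases ?_ (fun j => ?_) i
  · simp [pt]
  · simp [pt]

theorem vanishes_rho {k : ℕ → ℕ} {r m : ℕ} {t : ℂ} {f : MvPolynomial (Fin (r + 2)) ℂ}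
    (h : VanishesToOrder m (pt k (r + 1) t) f) :
    VanishesToOrder m (pt k r t) (rho (k r) r f) := by
  rw [← eval_cons_pt] at h
  exact h.comp _ _

theorem low_hyp (k : ℕ → ℕ) (r : ℕ) (t : ℂ) :
    Low 1 (aeval (fun j => (X j + C (pt k (r + 1) t j) : MvPolynomial (Fin (r + 2)) ℂ))
      (hyp (k r) r)) ∧
    coeff (Finsupp.single 0 1)
      (aeval (fun j => (X j + C (pt k (r + 1) t j) : MvPolynomial (Fin (r + 2)) ℂ))
      (hyp (k r) r)) ≠ 0 := by
  have h1 : hyp (k r) r = monomial (Finsupp.single 0 1) 1 - monomial (Finsupp.single 1 (k r)) 1 := by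
    rw [hyp, X_pow_eq_monomial]; rfl
  have h10 : (1 : Fin (r + 2)) ≠ 0 := by simp
  have hcoeff : ∀ s : Fin (r + 2) →₀ ℕ, coeff s
      (aeval (fun j => (X j + C (pt k (r + 1) t j) : MvPolynomial (Fin (r + 2)) ℂ))
        (hyp (k r) r)) =
      (∏ j, ((Finsupp.single (0 : Fin (r + 2)) 1 j).choose (s j) : ℂ) *
        pt k (r + 1) t j ^ (Finsupp.single (0 : Fin (r + 2)) 1 j - s j)) -
      (∏ j, ((Finsupp.single (1 : Fin (r + 2)) (k r) j).choose (s j) : ℂ) *
        pt k (r + 1) t j ^ (Finsupp.single (1 : Fin (r + 2)) (k r) j - s j)) := by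
    intro s
    rw [h1, map_sub, coeff_sub, coeff_taylor_monomial, coeff_taylor_monomial, one_mul, one_mul]
  constructor
  · intro s hs
    have hs0 : s = 0 := by
      rw [← Finsupp.degree_eq_zero_iff]; omega
    subst hs0
    rw [hcoeff]
    have e1 : (∏ j, ((Finsupp.single (0 : Fin (r + 2)) 1 j).choose ((0 : Fin (r + 2) →₀ ℕ) j) : ℂ) *
        pt k (r + 1) t j ^ (Finsupp.single (0 : Fin (r + 2)) 1 j - (0 : Fin (r + 2) →₀ ℕ) j)) =
        pt k (r + 1) t 0 := by
      rw [Finset.prod_eq_single 0]
      · simp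
      · intro j _ hj
        rw [Finsupp.single_eq_of_ne hj]; simp
      · simp
    have e2 : (∏ j, ((Finsupp.single (1 : Fin (r + 2)) (k r) j).choose
        ((0 : Fin (r + 2) →₀ ℕ) j) : ℂ) *
        pt k (r + 1) t j ^ (Finsupp.single (1 : Fin (r + 2)) (k r) j -
          (0 : Fin (r + 2) →₀ ℕ) j)) =
        pt k (r + 1) t 1 ^ k r := by
      rw [Finset.prod_eq_single 1]
      · simp
      · intro j _ hj
        rw [Finsupp.single_eq_of_ne hj]; simp
      · simp
    rw [e1, e2]
    have h2 : (1 : Fin (r + 2)) = (0 : Fin (r + 1)).succ := rfl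
    rw [h2]
    simp [pt]
  · rw [hcoeff]
    have e1 : (∏ j, ((Finsupp.single (0 : Fin (r + 2)) 1 j).choose
        ((Finsupp.single 0 1 : Fin (r + 2) →₀ ℕ) j) : ℂ) *
        pt k (r + 1) t j ^ (Finsupp.single (0 : Fin (r + 2)) 1 j -
          (Finsupp.single 0 1 : Fin (r + 2) →₀ ℕ) j)) = 1 := by
      apply Finset.prod_eq_one
      intro j _
      simp
    have e2 : (∏ j, ((Finsupp.single (1 : Fin (r + 2)) (k r) j).choose
        ((Finsupp.single 0 1 : Fin (r + 2) →₀ ℕ) j) : ℂ) *
        pt k (r + 1) t j ^ (Finsupp.single (1 : Fin (r + 2)) (k r) j -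
          (Finsupp.single 0 1 : Fin (r + 2) →₀ ℕ) j)) = 0 := by
      apply Finset.prod_eq_zero (Finset.mem_univ 0)
      rw [Finsupp.single_eq_of_ne h10.symm]
      simp
    rw [e1, e2, sub_zero]
    exact one_ne_zero

theorem vanishes_of_hyp_mul {k : ℕ → ℕ} {r m : ℕ} {t : ℂ} {g : MvPolynomial (Fin (r + 2)) ℂ}
    (h : VanishesToOrder m (pt k (r + 1) t) (hyp (k r) r * g)) :
    VanishesToOrder (m - 1) (pt k (r + 1) t) g := by
  rw [vanishesToOrder_iff_low, map_mul] at h
  exact Low.of_mul (low_hyp k r t).1 ⟨0, (low_hyp k r t).2⟩ h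

variable {ι : Type*}

/-- Polynomials with exponents of bounded cost and prescribed multiplicities at points of the
monomial curve. -/
noncomputable def FF (k : ℕ → ℕ) (r : ℕ) (c : ℕ → ℕ) (D : ℤ) (m : ι → ℕ) (t : ι → ℝ) :
    Submodule ℂ (MvPolynomial (Fin (r + 1)) ℂ) where
  carrier := {f | f ∈ W r c D ∧ ∀ i, VanishesToOrder (m i) (pt k r (t i)) f}
  add_mem' := by
    rintro f g ⟨hf, hf'⟩ ⟨hg, hg'⟩
    refine ⟨Submodule.add_mem _ hf hg, fun i => ?_⟩
    intro s hs
    rw [map_add, coeff_add, hf' i s hs, hg' i s hs, add_zero]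
  zero_mem' := ⟨Submodule.zero_mem _, fun i s _ => by simp⟩
  smul_mem' := by
    rintro a f ⟨hf, hf'⟩
    refine ⟨Submodule.smul_mem _ _ hf, fun i s hs => ?_⟩
    rw [map_smul, coeff_smul, hf' i s hs, smul_zero]

theorem mem_FF {k : ℕ → ℕ} {r : ℕ} {c : ℕ → ℕ} {D : ℤ} {m : ι → ℕ} {t : ι → ℝ}
    {f : MvPolynomial (Fin (r + 1)) ℂ} :
    f ∈ FF k r c D m t ↔ f ∈ W r c D ∧ ∀ i, VanishesToOrder (m i) (pt k r (t i)) f := Iff.rfl

theorem FF_le_W {k : ℕ → ℕ} {r : ℕ} {c : ℕ → ℕ} {D : ℤ} {m : ι → ℕ} {t : ι → ℝ} :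
    FF k r c D m t ≤ W r c D := fun _ h => h.1

/-- The number of conditions that can be absorbed at one level. -/
noncomputable def N (k : ℕ → ℕ) : (r : ℕ) → (ℕ → ℕ) → ℤ → ℕ
  | 0, c, D => Nat.card {e : ℕ | (c e : ℤ) ≤ D}
  | r + 1, c, D => N k r (nextCost (k r) c) D

/-! ### The base case -/

/-- One-variable polynomials. -/
noncomputable def toUni : MvPolynomial (Fin 1) ℂ →ₐ[ℂ] Polynomial ℂ :=
  aeval (fun _ => Polynomial.X)

theorem toUni_monomial (β : Fin 1 →₀ ℕ) (a : ℂ) :
    toUni (monomial β a) = Polynomial.monomial (β 0) a := by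
  rw [toUni, aeval_monomial, Finsupp.prod_fintype _ _ (fun i => pow_zero _)]
  simp [Polynomial.C_mul_X_pow_eq_monomial]

theorem coeff_toUni (f : MvPolynomial (Fin 1) ℂ) (e : ℕ) :
    (toUni f).coeff e = coeff (Finsupp.single 0 e) f := by
  induction f using MvPolynomial.induction_on' with
  | monomial β a =>
    rw [toUni_monomial, Polynomial.coeff_monomial, coeff_monomial]
    congr 1
    apply propext
    constructor
    · intro h
      ext
      simp [h]
    · intro h
      rw [h]; simp
  | add p q hp hq => rw [map_add, Polynomial.coeff_add, hp, hq, coeff_add]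

theorem dvd_toUni {m : ℕ} {t : ℂ} {f : MvPolynomial (Fin 1) ℂ}
    (h : VanishesToOrder m (fun _ => t) f) :
    (Polynomial.X - Polynomial.C t) ^ m ∣ toUni f := by
  rw [Polynomial.X_sub_C_pow_dvd_iff]
  have h1 : (toUni f).comp (Polynomial.X + Polynomial.C t) =
      toUni (aeval (fun j => (X j + C t : MvPolynomial (Fin 1) ℂ)) f) := by
    have h2 : (Polynomial.compRingHom (Polynomial.X + Polynomial.C t)).comp
        (toUni : MvPolynomial (Fin 1) ℂ →+* Polynomial ℂ) =
        (toUni : MvPolynomial (Fin 1) ℂ →+* Polynomial ℂ).comp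
          ((aeval (fun j => (X j + C t : MvPolynomial (Fin 1) ℂ)) :
            MvPolynomial (Fin 1) ℂ →ₐ[ℂ] MvPolynomial (Fin 1) ℂ) :
            MvPolynomial (Fin 1) ℂ →+* MvPolynomial (Fin 1) ℂ) := by
      apply MvPolynomial.ringHom_ext
      · intro a
        simp [toUni]
      · intro i
        simp [toUni]
    exact DFunLike.congr_fun h2 f
  rw [h1, Polynomial.X_pow_dvd_iff]
  intro e he
  rw [coeff_toUni]
  exact h _ (by simpa using he)

theorem base_eq_zero [Fintype ι] {t : ι → ℝ} (ht : Function.Injective t) (htpos : ∀ i, 0 < t i) {m : ι → ℕ}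
    {T : Set (Fin 1 →₀ ℕ)} (hT : T.Finite) (hcard : T.ncard ≤ ∑ i, m i)
    {f : MvPolynomial (Fin 1) ℂ} (hf : f ∈ restrictSupport ℂ T)
    (hv : ∀ i, VanishesToOrder (m i) (fun _ => (t i : ℂ)) f) : f = 0 := by
  classical
  have h1 : toUni f = 0 := by
    refine complex_fewnomial t ht htpos m _ (fun i => dvd_toUni (hv i)) ?_
    refine le_trans ?_ hcard
    rw [← Set.ncard_coe_finset]
    refine Set.ncard_le_ncard_of_injOn (fun e => Finsupp.single 0 e) ?_ ?_ hT
    · intro e he
      rw [Finset.mem_coe, Polynomial.mem_support_iff, coeff_toUni] at he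
      exact (mem_restrictSupport_iff ℂ).mp hf (mem_support_iff.mpr he)
    · intro a _ b _ hab
      have := DFunLike.congr_fun hab 0
      simpa using this
  ext β
  have h2 : β = Finsupp.single 0 (β 0) := by
    ext
    simp
  rw [h2, ← coeff_toUni, h1]
  simp

theorem natCard_S_zero (c : ℕ → ℕ) (D : ℤ) :
    Nat.card (S 0 c D) = Nat.card {e : ℕ | (c e : ℤ) ≤ D} := by
  refine Nat.card_congr
    { toFun := fun β => ⟨β.1 0, by have h : (cost c β.1 : ℤ) ≤ D := β.2; simpa [cost] using h⟩
      invFun := fun e => ⟨Finsupp.single 0 e.1, by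
        have h : (c e.1 : ℤ) ≤ D := e.2
        show (cost c (Finsupp.single 0 e.1) : ℤ) ≤ D
        simpa [cost] using h⟩
      left_inv := ?_
      right_inv := ?_ }
  · rintro ⟨β, hβ⟩
    ext i
    fin_cases i
    simp
  · rintro ⟨e, he⟩
    simp

theorem finrank_W_zero (k : ℕ → ℕ) (c : ℕ → ℕ) (D : ℤ) :
    Module.finrank ℂ (W 0 c D) = N k 0 c D := by
  rw [W, finrank_restrictSupport, natCard_S_zero]
  rfl

theorem base_A [Fintype ι] {k : ℕ → ℕ} {c : ℕ → ℕ} (hc : IsCost c) {D : ℤ} {m : ι → ℕ} {t : ι → ℝ}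
    (ht : Function.Injective t) (htpos : ∀ i, 0 < t i) (h : N k 0 c D ≤ ∑ i, m i) :
    FF k 0 c D m t = ⊥ := by
  rw [eq_bot_iff]
  intro f hf
  rw [Submodule.mem_bot]
  refine base_eq_zero ht htpos (finite_S 0 hc D) ?_ hf.1 hf.2
  rw [← Nat.card_coe_set_eq, natCard_S_zero]
  exact h

theorem base_B [Fintype ι] {k : ℕ → ℕ} {c : ℕ → ℕ} (hc : IsCost c) {D : ℤ} {m : ι → ℕ} {t : ι → ℝ}
    (ht : Function.Injective t) (htpos : ∀ i, 0 < t i) (h : ∑ i, m i ≤ N k 0 c D) :
    Module.finrank ℂ (FF k 0 c D m t) + ∑ i, m i ≤ Module.finrank ℂ (W 0 c D) := by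
  classical
  have hfinS := finite_S 0 hc D
  have hcard : (S 0 c D).ncard = N k 0 c D := by
    rw [← Nat.card_coe_set_eq, natCard_S_zero]
    rfl
  obtain ⟨T, hTS, hT⟩ := Set.exists_subset_card_eq (s := S 0 c D) (n := ∑ i, m i)
    (by rw [hcard]; exact h)
  have hTfin : T.Finite := hfinS.subset hTS
  have : Finite T := hTfin
  have : Module.Finite ℂ (restrictSupport ℂ T) := finite_restrictSupport T
  have : Fact (IsCost c) := ⟨hc⟩
  have : Module.Finite ℂ (FF k 0 c D m t) := Submodule.finiteDimensional_of_le FF_le_W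
  have h1 : (FF k 0 c D m t ⊓ restrictSupport ℂ T : Submodule ℂ (MvPolynomial (Fin 1) ℂ)) = ⊥ := by
    rw [eq_bot_iff]
    rintro f ⟨hf, hfT⟩
    rw [Submodule.mem_bot]
    exact base_eq_zero ht htpos hTfin hT.le hfT hf.2
  have h2 := Submodule.finrank_sup_add_finrank_inf_eq (FF k 0 c D m t) (restrictSupport ℂ T)
  rw [h1, finrank_bot, add_zero] at h2
  have h3 : Module.finrank ℂ (restrictSupport ℂ T) = ∑ i, m i := by
    rw [finrank_restrictSupport, Nat.card_coe_set_eq, hT]
  rw [h3] at h2
  rw [← h2]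
  apply Submodule.finrank_mono
  refine sup_le FF_le_W ?_
  intro f hf
  rw [mem_restrictSupport_iff] at hf
  rw [W, mem_restrictSupport_iff]
  exact hf.trans hTS

/-! ### The induction step -/

theorem push_surj {c : ℕ → ℕ} {k r : ℕ} {D : ℤ} {γ : Fin (r + 1) →₀ ℕ}
    (hγ : γ ∈ S r (nextCost k c) D) : ∃ β ∈ S (r + 1) c D, push k β = γ := by
  classical
  refine ⟨Finsupp.cons (γ 0 / k) (γ.update 0 (γ 0 % k)), ?_, ?_⟩
  · show (cost c _ : ℤ) ≤ D
    have h1 : (cost (nextCost k c) γ : ℤ) ≤ D := hγ
    convert h1 using 2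
    unfold cost nextCost
    rw [Fin.sum_univ_succ]
    simp only [Finsupp.cons_zero, Finsupp.cons_succ, Finsupp.coe_update, Function.update_self,
      ne_eq, Fin.succ_ne_zero, not_false_eq_true, Function.update_of_ne]
    ring
  · unfold push
    rw [Finsupp.tail_cons, Finsupp.cons_zero]
    ext i
    refine Fin.cases ?_ (fun j => ?_) i
    · simp [Nat.mod_add_div]
    · simp

theorem finrank_W_succ {c : ℕ → ℕ} (hc : IsCost c) {k : ℕ} (hk : 1 ≤ k) (r : ℕ) (D : ℤ) :
    Module.finrank ℂ (W r (nextCost k c) D) + Module.finrank ℂ (W (r + 1) c (D - k)) ≤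
      Module.finrank ℂ (W (r + 1) c D) := by
  classical
  have : Fact (IsCost c) := ⟨hc⟩
  have : Fact (IsCost (nextCost k c)) := ⟨hc.next hk⟩
  let φ : W (r + 1) c D →ₗ[ℂ] W r (nextCost k c) D :=
    (rho k r).toLinearMap.restrict (fun f hf => rho_mem_W hc hk hf)
  have hsurj : Function.Surjective φ := by
    have hle : W r (nextCost k c) D ≤ (W (r + 1) c D).map (rho k r).toLinearMap := by
      intro g hg
      rw [g.as_sum]
      refine Submodule.sum_mem _ fun γ hγ => ?_
      obtain ⟨β, hβ, hβγ⟩ := push_surj (mem_W.mp hg γ hγ)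
      refine ⟨monomial β (coeff γ g), ?_, ?_⟩
      · rw [SetLike.mem_coe, mem_W]
        intro δ hδ
        have h1 : δ = β := by
          have := support_monomial_subset hδ
          simpa using this
        rw [h1]
        exact hβ
      · show rho k r _ = _
        rw [rho_monomial, hβγ]
    rintro ⟨g, hg⟩
    obtain ⟨f, hf, hfg⟩ := hle hg
    exact ⟨⟨f, hf⟩, Subtype.ext hfg⟩
  have h1 := LinearMap.finrank_range_add_finrank_ker φ
  rw [LinearMap.range_eq_top.mpr hsurj, finrank_top] at h1
  have h2 : Module.finrank ℂ (W (r + 1) c (D - k)) ≤ Module.finrank ℂ (LinearMap.ker φ) := by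
    let ψ : W (r + 1) c (D - k) →ₗ[ℂ] LinearMap.ker φ :=
      { toFun := fun g => ⟨⟨hyp k r * g.1, by
          rw [hyp, sub_mul]
          have hg := mem_W.mp g.2
          refine Submodule.sub_mem _ ?_ ?_
          · rw [mem_W]
            intro β hβ
            rw [mem_support_iff, coeff_X_mul'] at hβ
            split_ifs at hβ with h0
            · have h3 := hg _ (mem_support_iff.mpr hβ)
              obtain ⟨δ, hδ⟩ : ∃ δ : Fin (r + 2) →₀ ℕ, δ = β - Finsupp.single 0 1 := ⟨_, rfl⟩
              have h4 : (cost c δ : ℤ) ≤ D - k := by rw [hδ]; exact h3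
              rw [Finsupp.mem_support_iff] at h0
              have e0 : δ 0 = β 0 - 1 := by
                rw [hδ, Finsupp.tsub_apply]; simp
              have es : ∀ i : Fin (r + 1), δ i.succ = β i.succ := by
                intro i
                rw [hδ, Finsupp.tsub_apply, Finsupp.single_eq_of_ne (Fin.succ_ne_zero _),
                  Nat.sub_zero]
              have h5 : cost c β ≤ cost c δ + 1 := by
                unfold cost
                simp only [es]
                rw [e0]
                have h6 := hc.step (β 0 - 1)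
                rw [Nat.sub_add_cancel (Nat.pos_of_ne_zero h0)] at h6
                omega
              have h7 : (cost c β : ℤ) ≤ cost c δ + 1 := by exact_mod_cast h5
              have hk' : (1 : ℤ) ≤ k := by exact_mod_cast hk
              linarith
            · exact absurd rfl hβ
          · rw [X_pow_eq_monomial, mem_W]
            intro β hβ
            rw [mem_support_iff, coeff_monomial_mul', one_mul] at hβ
            split_ifs at hβ with h0
            · have h3 := hg _ (mem_support_iff.mpr hβ)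
              obtain ⟨δ, hδ⟩ : ∃ δ : Fin (r + 2) →₀ ℕ, δ = β - Finsupp.single 1 k := ⟨_, rfl⟩
              have h4 : (cost c δ : ℤ) ≤ D - k := by rw [hδ]; exact h3
              have hβδ : β = δ + Finsupp.single 1 k := by
                rw [hδ, tsub_add_cancel_of_le h0]
              have h10 : (1 : Fin (r + 2)) ≠ 0 := by simp
              have h5 : cost c β = cost c δ + k := by
                unfold cost
                rw [Fin.sum_univ_succ, Fin.sum_univ_succ, hβδ]
                have e0 : (δ + Finsupp.single 1 k : Fin (r + 2) →₀ ℕ) 0 = δ 0 := by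
                  rw [Finsupp.add_apply, Finsupp.single_eq_of_ne h10.symm, add_zero]
                have e1 : (δ + Finsupp.single 1 k : Fin (r + 2) →₀ ℕ) (0 : Fin (r + 1)).succ =
                    δ (0 : Fin (r + 1)).succ + k := by
                  have h9 : (1 : Fin (r + 2)) = (0 : Fin (r + 1)).succ := rfl
                  rw [Finsupp.add_apply, h9, Finsupp.single_eq_same]
                have es : ∀ i : Fin r, (δ + Finsupp.single 1 k : Fin (r + 2) →₀ ℕ) i.succ.succ =
                    δ i.succ.succ := by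
                  intro i
                  rw [Finsupp.add_apply, Finsupp.single_eq_of_ne, add_zero]
                  intro h
                  exact absurd (Fin.succ_injective _ h) (Fin.succ_ne_zero i)
                rw [e0, e1]
                simp only [es]
                ring
              rw [h5]
              push_cast
              linarith
            · exact absurd rfl hβ⟩, by
          rw [LinearMap.mem_ker]
          apply Subtype.ext
          show rho k r (hyp k r * g.1) = 0
          rw [map_mul, rho_hyp, zero_mul]⟩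
        map_add' := fun a b => by
          apply Subtype.ext; apply Subtype.ext
          show hyp k r * (a.1 + b.1) = hyp k r * a.1 + hyp k r * b.1
          ring
        map_smul' := fun a b => by
          apply Subtype.ext; apply Subtype.ext
          show hyp k r * (a • b.1) = a • (hyp k r * b.1)
          rw [mul_smul_comm] }
    refine LinearMap.finrank_le_finrank_of_injective (f := ψ)
      ((injective_iff_map_eq_zero ψ).mpr ?_)
    intro g hg
    have h3 : hyp k r * g.1 = 0 := congrArg (fun x => x.1.1) hg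
    exact Subtype.ext ((mul_eq_zero.mp h3).resolve_left (hyp_ne_zero k r))
  omega

theorem finrank_FF_succ {c : ℕ → ℕ} (hc : IsCost c) {k : ℕ → ℕ} (hk : ∀ j, 1 ≤ k j) (r : ℕ)
    (D : ℤ) (m : ι → ℕ) (t : ι → ℝ) :
    Module.finrank ℂ (FF k (r + 1) c D m t) ≤
      Module.finrank ℂ (FF k r (nextCost (k r) c) D m t) +
        Module.finrank ℂ (FF k (r + 1) c (D - k r) (fun i => m i - 1) t) := by
  classical
  have : Fact (IsCost c) := ⟨hc⟩
  have : Fact (IsCost (nextCost (k r) c)) := ⟨hc.next (hk r)⟩
  have hfin1 : Module.Finite ℂ (FF k (r + 1) c D m t) :=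
    Submodule.finiteDimensional_of_le FF_le_W
  have hfin2 : Module.Finite ℂ (FF k r (nextCost (k r) c) D m t) :=
    Submodule.finiteDimensional_of_le FF_le_W
  have hfin3 : Module.Finite ℂ (FF k (r + 1) c (D - k r) (fun i => m i - 1) t) :=
    Submodule.finiteDimensional_of_le FF_le_W
  let φ : FF k (r + 1) c D m t →ₗ[ℂ] FF k r (nextCost (k r) c) D m t :=
    (rho (k r) r).toLinearMap.restrict
      (fun f hf => ⟨rho_mem_W hc (hk r) hf.1, fun i => vanishes_rho (hf.2 i)⟩)
  have h1 := LinearMap.finrank_range_add_finrank_ker φ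
  have h2 : Module.finrank ℂ (LinearMap.range φ) ≤
      Module.finrank ℂ (FF k r (nextCost (k r) c) D m t) := Submodule.finrank_le _
  have h3 : Module.finrank ℂ (LinearMap.ker φ) ≤
      Module.finrank ℂ (FF k (r + 1) c (D - k r) (fun i => m i - 1) t) := by
    -- every element of the kernel is a multiple of the equation of the hypersurface
    have hdiv : ∀ f : LinearMap.ker φ, ∃ g : FF k (r + 1) c (D - k r) (fun i => m i - 1) t,
        f.1.1 = hyp (k r) r * g.1 := by
      rintro ⟨⟨f, hf⟩, hker⟩
      have h0 : rho (k r) r f = 0 := by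
        have := LinearMap.mem_ker.mp hker
        exact congrArg Subtype.val this
      obtain ⟨g, hg⟩ := hyp_dvd_of_rho h0
      refine ⟨⟨g, ?_, fun i => ?_⟩, hg⟩
      · apply mem_W_of_hyp_mul hc (hk r)
        rw [← hg]
        exact hf.1
      · apply vanishes_of_hyp_mul
        rw [← hg]
        exact hf.2 i
    choose G hG using hdiv
    let ψ : LinearMap.ker φ →ₗ[ℂ] FF k (r + 1) c (D - k r) (fun i => m i - 1) t :=
      { toFun := G
        map_add' := fun a b => by
          apply Subtype.ext
          apply mul_left_cancel₀ (hyp_ne_zero (k r) r)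
          rw [← hG]
          show a.1.1 + b.1.1 = hyp (k r) r * ((G a).1 + (G b).1)
          rw [hG, hG]
          ring
        map_smul' := fun a b => by
          apply Subtype.ext
          apply mul_left_cancel₀ (hyp_ne_zero (k r) r)
          rw [← hG]
          show a • b.1.1 = hyp (k r) r * (a • (G b).1)
          rw [hG, mul_smul_comm] }
    refine LinearMap.finrank_le_finrank_of_injective (f := ψ) ?_
    intro f f' hf
    have h4 : G f = G f' := hf
    apply Subtype.ext
    apply Subtype.ext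
    rw [hG, hG, h4]
  omega

theorem W_eq_bot {r : ℕ} {c : ℕ → ℕ} {D : ℤ} (hD : D < 0) : W r c D = ⊥ := by
  rw [eq_bot_iff]
  intro f hf
  rw [Submodule.mem_bot, ← support_eq_empty, Finset.eq_empty_iff_forall_notMem]
  intro β hβ
  have := mem_W.mp hf β hβ
  omega

theorem FF_eq_bot {k : ℕ → ℕ} {r : ℕ} {c : ℕ → ℕ} {D : ℤ} (hD : D < 0) (m : ι → ℕ) (t : ι → ℝ) :
    FF k r c D m t = ⊥ := by
  rw [eq_bot_iff, ← W_eq_bot (r := r) (c := c) (D := D) hD]
  exact FF_le_W

theorem N_eq_zero {k : ℕ → ℕ} : ∀ (r : ℕ) (c : ℕ → ℕ) (D : ℤ), D < 0 → N k r c D = 0 := by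
  intro r
  induction r with
  | zero =>
    intro c D hD
    show Nat.card {e : ℕ | (c e : ℤ) ≤ D} = 0
    have : {e : ℕ | (c e : ℤ) ≤ D} = ∅ := by
      ext e
      simp only [Set.mem_ofPred_eq, Set.mem_empty_iff_false, iff_false, not_le]
      omega
    rw [this]; simp
  | succ r ih => intro c D hD; exact ih _ D hD

/-- The base case of the upper bound. -/
theorem base_le [Fintype ι] {k : ℕ → ℕ} {c : ℕ → ℕ} (hc : IsCost c) {D : ℤ} {m : ι → ℕ}
    {t : ι → ℝ} (ht : Function.Injective t) (htpos : ∀ i, 0 < t i) :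
    Module.finrank ℂ (FF k 0 c D m t) ≤ N k 0 c D - ∑ i, m i := by
  rcases le_total (N k 0 c D) (∑ i, m i) with h | h
  · rw [base_A hc ht htpos h, finrank_bot]
    exact Nat.zero_le _
  · have h1 := base_B hc ht htpos h
    rw [finrank_W_zero k] at h1
    omega

/-- Iterated restriction to the hypersurface. -/
theorem finrank_FF_le_sum {c : ℕ → ℕ} (hc : IsCost c) {k : ℕ → ℕ} (hk : ∀ j, 1 ≤ k j) (r : ℕ)
    (m : ι → ℕ) (t : ι → ℝ) (D : ℤ) (s : ℕ) :
    Module.finrank ℂ (FF k (r + 1) c D m t) ≤
      ∑ l ∈ Finset.range s, Module.finrank ℂ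
        (FF k r (nextCost (k r) c) (D - k r * l) (fun i => m i - l) t) +
        Module.finrank ℂ (FF k (r + 1) c (D - k r * s) (fun i => m i - s) t) := by
  induction s with
  | zero =>
    have h0 : D - k r * ((0 : ℕ) : ℤ) = D := by push_cast; ring
    rw [h0]
    simp
  | succ s ih =>
    rw [Finset.sum_range_succ]
    have h1 := finrank_FF_succ hc hk r (D - k r * s) (fun i => m i - s) t
    have h2 : D - k r * ((s + 1 : ℕ) : ℤ) = D - k r * s - k r := by push_cast; ring
    have h3 : (fun i => m i - (s + 1)) = (fun i => m i - s - 1) := by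
      funext i; omega
    rw [h2, h3]
    omega

/-- The upper bound. -/
theorem main_le [Fintype ι] {k : ℕ → ℕ} (hk : ∀ j, 1 ≤ k j) {t : ι → ℝ}
    (ht : Function.Injective t) (htpos : ∀ i, 0 < t i) (s : ℕ) : ∀ (r : ℕ) (c : ℕ → ℕ),
    IsCost c → ∀ (D : ℤ) (m : ι → ℕ), D < s →
    Module.finrank ℂ (FF k r c D m t) ≤
      ∑ l : Fin r → Fin s, (N k r c (D - ∑ j : Fin r, (k j : ℤ) * (l j : ℕ)) -
        ∑ i, (m i - ∑ j, (l j : ℕ))) := by
  intro r
  induction r with
  | zero =>
    intro c hc D m _
    refine (base_le hc ht htpos).trans ?_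
    rw [Fintype.sum_unique (ι := Fin 0 → Fin s)]
    simp only [Finset.univ_eq_empty, Finset.sum_empty, sub_zero, Nat.sub_zero]
    exact le_rfl
  | succ r ih =>
    intro c hc D m hD
    have h1 := finrank_FF_le_sum hc hk r m t D s
    have hneg : D - k r * s < 0 := by
      have h2 : (1 : ℤ) ≤ k r := by exact_mod_cast hk r
      have h3 : (s : ℤ) ≤ k r * s := le_mul_of_one_le_left (by positivity) h2
      linarith
    rw [FF_eq_bot hneg, finrank_bot, add_zero] at h1
    refine h1.trans ?_
    have h4 : ∀ l : ℕ, D - k r * l < s := by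
      intro l
      have : (0 : ℤ) ≤ k r * l := by positivity
      linarith
    refine (Finset.sum_le_sum fun (l : ℕ) _ =>
      ih (nextCost (k r) c) (hc.next (hk r)) (D - k r * l) (fun i => m i - l) (h4 l)).trans
      (le_of_eq ?_)
    rw [← Equiv.sum_comp (Fin.snocEquiv (fun _ : Fin (r + 1) => Fin s)), Fintype.sum_prod_type,
      ← Fin.sum_univ_eq_sum_range (fun l => ∑ l' : Fin r → Fin s,
        (N k r (nextCost (k r) c) (D - k r * l - ∑ j : Fin r, (k j : ℤ) * (l' j : ℕ)) -
        ∑ i, (m i - l - ∑ j, (l' j : ℕ)))) s]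
    refine Finset.sum_congr rfl fun l _ => Finset.sum_congr rfl fun l' _ => ?_
    have e1 : ∑ j : Fin (r + 1), (k j : ℤ) *
        (((Fin.snocEquiv (fun _ : Fin (r + 1) => Fin s)) (l, l') j : Fin s) : ℕ) =
        ∑ j : Fin r, (k j : ℤ) * (l' j : ℕ) + k r * (l : ℕ) := by
      rw [Fin.sum_univ_castSucc]
      simp [Fin.snocEquiv]
    have e2 : ∑ j : Fin (r + 1),
        (((Fin.snocEquiv (fun _ : Fin (r + 1) => Fin s)) (l, l') j : Fin s) : ℕ) =
        ∑ j, (l' j : ℕ) + (l : ℕ) := by
      rw [Fin.sum_univ_castSucc]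
      simp [Fin.snocEquiv]
    rw [e1, e2]
    show N k r (nextCost (k r) c) _ - _ = N k r (nextCost (k r) c) _ - _
    congr 1
    · congr 1; ring
    · refine Finset.sum_congr rfl fun i _ => ?_
      omega

/-- Independence. -/
theorem main_B [Fintype ι] {k : ℕ → ℕ} (hk : ∀ j, 1 ≤ k j) {t : ι → ℝ}
    (ht : Function.Injective t) (htpos : ∀ i, 0 < t i) : ∀ (r : ℕ) (c : ℕ → ℕ), IsCost c →
    ∀ (s : ℕ) (D : ℤ) (m : ι → ℕ), D < s →
    (∀ l : Fin r → ℕ, ∑ i, (m i - ∑ j, l j) ≤ N k r c (D - ∑ j : Fin r, (k j : ℤ) * l j)) →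
      Module.finrank ℂ (FF k r c D m t) + ∑ i, (m i + r).choose (r + 1) ≤
        Module.finrank ℂ (W r c D) := by
  intro r
  induction r with
  | zero =>
    intro c hc s D m _ h
    have := base_B (k := k) (D := D) (m := m) hc ht htpos (by
      have := h (fun _ => 0)
      simpa using this)
    simpa using this
  | succ r ih =>
    intro c hc s
    induction s with
    | zero =>
      intro D m hD h
      have hD' : D < 0 := by exact_mod_cast hD
      have h0 := h (fun _ => 0)
      simp only [Finset.sum_const_zero, Nat.cast_zero, mul_zero, sub_zero] at h0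
      rw [N_eq_zero _ _ _ hD'] at h0
      have hm : ∀ i, m i = 0 := by
        intro i
        have := Finset.single_le_sum (f := fun i => m i - 0) (fun _ _ => Nat.zero_le _)
          (Finset.mem_univ i)
        simp only [Nat.sub_zero] at this h0
        omega
      rw [FF_eq_bot hD', finrank_bot, W_eq_bot hD', finrank_bot]
      simp [hm]
    | succ s ihs =>
      intro D m hD h
      have h1 := ih (nextCost (k r) c) (hc.next (hk r)) (D.toNat + 1) D m (by omega) (by
        intro l
        have h3 := h (Fin.snoc l 0)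
        rw [Fin.sum_univ_castSucc, Fin.sum_univ_castSucc] at h3
        simp only [Fin.snoc_castSucc, Fin.snoc_last, add_zero, Nat.cast_zero, mul_zero,
          Fin.val_castSucc] at h3
        exact h3)
      have hk' : (1 : ℤ) ≤ k r := by exact_mod_cast hk r
      have h2 := ihs (D - k r) (fun i => m i - 1) (by push_cast at hD; linarith) (by
        intro l
        have h3 := h (fun j => l j + if j = Fin.last r then 1 else 0)
        have e1 : ∑ j : Fin (r + 1), (k j : ℤ) *
            ((l j + if j = Fin.last r then 1 else 0 : ℕ) : ℤ) =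
            ∑ j : Fin (r + 1), (k j : ℤ) * l j + k r := by
          have : ∀ j : Fin (r + 1), (k j : ℤ) *
            ((l j + if j = Fin.last r then 1 else 0 : ℕ) : ℤ) = (k j : ℤ) * l j +
              if j = Fin.last r then (k r : ℤ) else 0 := by
            intro j
            split_ifs with hj
            · rw [hj]; simp; ring
            · simp
          rw [Finset.sum_congr rfl fun j _ => this j, Finset.sum_add_distrib]
          simp
        have e2 : ∑ j : Fin (r + 1), (l j + if j = Fin.last r then 1 else 0) =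
            ∑ j, l j + 1 := by
          rw [Finset.sum_add_distrib]; simp
        rw [e1, e2] at h3
        have e3 : D - k r - ∑ j : Fin (r + 1), (k j : ℤ) * l j =
          D - (∑ j : Fin (r + 1), (k j : ℤ) * l j + k r) := by ring
        rw [e3]
        refine le_trans (le_of_eq (Finset.sum_congr rfl fun i _ => ?_)) h3
        omega)
      have h3 := finrank_FF_succ hc hk r D m t
      have h4 := finrank_W_succ hc (hk r) r D
      have h5 : ∑ i, (m i + (r + 1)).choose (r + 1 + 1) =
          ∑ i, (m i + r).choose (r + 1) + ∑ i, (m i - 1 + (r + 1)).choose (r + 1 + 1) := by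
        rw [← Finset.sum_add_distrib]
        refine Finset.sum_congr rfl fun i _ => ?_
        rcases Nat.eq_zero_or_pos (m i) with h6 | h6
        · rw [h6]; simp
        · obtain ⟨a, ha⟩ : ∃ a, m i = a + 1 := ⟨m i - 1, by omega⟩
          rw [ha]
          have h7 : a + 1 + (r + 1) = (a + 1 + r) + 1 := by ring
          have h8 : a + 1 - 1 + (r + 1) = a + 1 + r := by omega
          rw [h7, h8, Nat.choose_succ_succ']
      rw [h5]
      omega

end Pool.Agent.H938R2.Elim
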