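import Mathlib
import Pool.Agent.H938R2.Elim2
import Pool.Agent.H938R2.Count
import Pool.Agent.H938R2.General

set_option autoImplicit false

/-!
Fat points on the monomial curve: passage to forms and to general points.
-/

namespace Pool.Agent.H938R2.Elim

open MvPolynomial

/-- The number of pairs `(ε, q)`, where `ε` is a family of natural numbers with `ε j < k j` for
every `j` and `q` is a natural number, with `∑ j, ε j + q ≤ D`. -/
noncomputable def cap {r : ℕ} (k : Fin r → ℕ) (D : ℤ) : ℕ :=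
  Nat.card {x : (Fin r → ℕ) × ℕ // (∀ j, x.1 j < k j) ∧ ((∑ j, x.1 j + x.2 : ℕ) : ℤ) ≤ D}

/-- The same with a cost function. -/
theorem N_eq (k : ℕ → ℕ) (hk : ∀ j, 1 ≤ k j) : ∀ (r : ℕ) (c : ℕ → ℕ) (D : ℤ),
    N k r c D = Nat.card {x : (Fin r → ℕ) × ℕ // (∀ j : Fin r, x.1 j < k j) ∧
      ((∑ j, x.1 j + c x.2 : ℕ) : ℤ) ≤ D} := by
  intro r
  induction r with
  | zero =>
    intro c D
    show Nat.card {e : ℕ | (c e : ℤ) ≤ D} = _
    refine Nat.card_congr
      { toFun := fun e => ⟨(fun j => 0, e.1), fun j => j.elim0, by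
          have h : (c e.1 : ℤ) ≤ D := e.2
          simpa using h⟩
        invFun := fun x => ⟨x.1.2, by
          have h := x.2.2
          simpa using h⟩
        left_inv := fun e => rfl
        right_inv := ?_ }
    rintro ⟨⟨ε, q⟩, hx⟩
    apply Subtype.ext
    show ((fun j => 0, q) : (Fin 0 → ℕ) × ℕ) = (ε, q)
    rw [Subsingleton.elim ε (fun j => 0)]
  | succ r ih =>
    intro c D
    show N k r (nextCost (k r) c) D = _
    rw [ih]
    refine Nat.card_congr
      { toFun := fun x => ⟨(Fin.snoc x.1.1 (x.1.2 % k r), x.1.2 / k r), ?_, ?_⟩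
        invFun := fun x => ⟨(fun j => x.1.1 j.castSucc, k r * x.1.2 + x.1.1 (Fin.last r)), ?_, ?_⟩
        left_inv := ?_
        right_inv := ?_ }
    · intro j
      refine Fin.lastCases ?_ (fun i => ?_) j
      · simp only [Fin.snoc_last]
        exact Nat.mod_lt _ (hk r)
      · simp only [Fin.snoc_castSucc]
        exact x.2.1 i
    · have h := x.2.2
      unfold nextCost at h
      rw [Fin.sum_univ_castSucc]
      simp only [Fin.snoc_castSucc, Fin.snoc_last]
      have e : ∑ i : Fin r, x.1.1 i + x.1.2 % k r + c (x.1.2 / k r) =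
        ∑ i : Fin r, x.1.1 i + (x.1.2 % k r + c (x.1.2 / k r)) := by ring
      rw [e]
      exact h
    · intro j
      have := x.2.1 j.castSucc
      simpa using this
    · have h := x.2.2
      have h1 := x.2.1 (Fin.last r)
      rw [Fin.val_last] at h1
      rw [Fin.sum_univ_castSucc] at h
      unfold nextCost
      have e1 : (k r * x.1.2 + x.1.1 (Fin.last r)) % k r = x.1.1 (Fin.last r) := by
        rw [Nat.mul_add_mod, Nat.mod_eq_of_lt h1]
      have e2 : (k r * x.1.2 + x.1.1 (Fin.last r)) / k r = x.1.2 := by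
        rw [Nat.mul_add_div (hk r), Nat.div_eq_of_lt h1, add_zero]
      simp only [e1, e2]
      have e : ∑ i : Fin r, x.1.1 i.castSucc + x.1.1 (Fin.last r) + c x.1.2 =
        ∑ i : Fin r, x.1.1 i.castSucc + (x.1.1 (Fin.last r) + c x.1.2) := by ring
      rw [e] at h
      exact h
    · rintro ⟨⟨ε, q⟩, hx⟩
      apply Subtype.ext
      refine Prod.ext ?_ ?_
      · funext j
        simp
      · simp only [Fin.snoc_last]
        exact Nat.div_add_mod q (k r)
    · rintro ⟨⟨ε, q⟩, hx⟩
      have h1 := hx.1 (Fin.last r)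
      rw [Fin.val_last] at h1
      change ε (Fin.last r) < k r at h1
      apply Subtype.ext
      refine Prod.ext ?_ ?_
      · funext j
        refine Fin.lastCases ?_ (fun i => ?_) j
        · simp only [Fin.snoc_last]
          rw [Nat.mul_add_mod, Nat.mod_eq_of_lt h1]
        · simp
      · simp only
        rw [Nat.mul_add_div (hk r), Nat.div_eq_of_lt h1, add_zero]

/-- Extension of a finite family by ones. -/
def ext {r : ℕ} (k : Fin r → ℕ) : ℕ → ℕ := fun j => if h : j < r then k ⟨j, h⟩ else 1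

theorem ext_coe {r : ℕ} (k : Fin r → ℕ) (j : Fin r) : ext k j = k j := by
  simp [ext]

theorem one_le_ext {r : ℕ} {k : Fin r → ℕ} (hk : ∀ j, 1 ≤ k j) (j : ℕ) : 1 ≤ ext k j := by
  unfold ext
  split_ifs
  · exact hk _
  · exact le_rfl

theorem N_ext {r : ℕ} {k : Fin r → ℕ} (hk : ∀ j, 1 ≤ k j) (D : ℤ) :
    N (ext k) r id D = cap k D := by
  rw [N_eq (ext k) (one_le_ext hk) r id D, cap]
  simp only [ext_coe, id]

/-! ### Dehomogenisation -/

/-- Dehomogenisation. -/
noncomputable def dehom (r : ℕ) : MvPolynomial (Fin (r + 2)) ℂ →ₐ[ℂ] MvPolynomial (Fin (r + 1)) ℂ :=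
  aeval (Fin.cons 1 X)

theorem dehom_monomial (r : ℕ) (β : Fin (r + 2) →₀ ℕ) (a : ℂ) :
    dehom r (monomial β a) = monomial (Finsupp.tail β) a := by
  rw [dehom, aeval_monomial, Finsupp.prod_fintype _ _ (fun i => pow_zero _), Fin.prod_univ_succ]
  simp only [Fin.cons_zero, Fin.cons_succ, one_pow, one_mul]
  have h1 : (∏ i : Fin (r + 1), X i ^ β i.succ : MvPolynomial (Fin (r + 1)) ℂ) =
      monomial (Finsupp.tail β) 1 := by
    rw [monomial_eq, Finsupp.prod_fintype _ _ (fun i => pow_zero _)]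
    simp [Finsupp.tail_apply]
  rw [h1, algebraMap_eq, C_mul_monomial, mul_one]

theorem cost_id {r : ℕ} (β : Fin (r + 1) →₀ ℕ) : cost id β = β.degree := by
  rw [Finsupp.degree_eq_sum, Fin.sum_univ_succ]
  rfl

theorem coeff_dehom {r d : ℕ} {F : MvPolynomial (Fin (r + 2)) ℂ} (hF : F.IsHomogeneous d)
    (β : Fin (r + 2) →₀ ℕ) (hβ : β.degree = d) :
    coeff (Finsupp.tail β) (dehom r F) = coeff β F := by
  classical
  conv_lhs => rw [F.as_sum]
  rw [map_sum, coeff_sum]
  simp only [dehom_monomial, coeff_monomial]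
  rw [Finset.sum_eq_single β]
  · rw [if_pos rfl]
  · intro γ hγ hne
    rw [if_neg]
    intro h
    apply hne
    have h1 : γ.degree = d := (isHomogeneous_iff F).mp hF γ hγ
    rw [Finsupp.degree_eq_sum, Fin.sum_univ_succ] at h1 hβ
    have h2 : ∀ i : Fin (r + 1), γ i.succ = β i.succ := by
      intro i
      have := DFunLike.congr_fun h i
      simpa [Finsupp.tail_apply] using this
    ext i
    refine Fin.cases ?_ (fun j => h2 j) i
    simp only [h2] at h1
    omega
  · intro h
    rw [if_pos rfl]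
    exact notMem_support_iff.mp h

theorem dehom_mem_W {r d : ℕ} {F : MvPolynomial (Fin (r + 2)) ℂ} (hF : F.IsHomogeneous d) :
    dehom r F ∈ W r id (d : ℤ) := by
  rw [F.as_sum, map_sum]
  refine Submodule.sum_mem _ fun β hβ => ?_
  rw [dehom_monomial, mem_W]
  intro γ hγ
  have h1 : γ = Finsupp.tail β := by
    have := support_monomial_subset hγ
    simpa using this
  have h2 : β.degree = d := (isHomogeneous_iff F).mp hF β hβ
  rw [h1, cost_id, Finsupp.degree_eq_sum]
  rw [Finsupp.degree_eq_sum, Fin.sum_univ_succ] at h2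
  simp only [Finsupp.tail_apply]
  omega

theorem eval_dehom (r : ℕ) (q : Fin (r + 1) → ℂ) :
    (fun i => eval q ((Fin.cons 1 X : Fin (r + 2) → MvPolynomial (Fin (r + 1)) ℂ) i)) =
      Fin.cons 1 q := by
  funext i
  refine Fin.cases ?_ (fun j => ?_) i
  · simp
  · simp

theorem vanishes_dehom {r m : ℕ} {q : Fin (r + 1) → ℂ} {F : MvPolynomial (Fin (r + 2)) ℂ}
    (h : VanishesToOrder m (Fin.cons 1 q) F) : VanishesToOrder m q (dehom r F) := by
  rw [← eval_dehom] at h
  exact h.comp _ _

theorem finrank_W_id_le (r d : ℕ) :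
    Module.finrank ℂ (W r id (d : ℤ)) ≤ (d + (r + 1)).choose (r + 1) := by
  rw [W, finrank_restrictSupport, ← natCard_expo (r + 1) d]
  have : Finite {β : Fin (r + 1 + 1) →₀ ℕ | β.degree = d} := finite_expo _ _
  refine Nat.card_le_card_of_injective
    (fun β => ⟨Finsupp.cons (d - β.1.degree) β.1, ?_⟩) ?_
  · have h : (cost id β.1 : ℤ) ≤ d := β.2
    rw [cost_id] at h
    have h' : β.1.degree ≤ d := by exact_mod_cast h
    rw [Set.mem_ofPred_eq, Finsupp.degree_eq_sum, Fin.sum_univ_succ]
    simp only [Finsupp.cons_zero, Finsupp.cons_succ]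
    rw [Finsupp.degree_eq_sum] at h' ⊢
    omega
  · intro β γ h
    have h1 := congrArg Subtype.val h
    simp only at h1
    apply Subtype.ext
    have h2 := congrArg Finsupp.tail h1
    rwa [Finsupp.tail_cons, Finsupp.tail_cons] at h2

/-- The points of the monomial curve as points of projective space. -/
noncomputable def pts {r : ℕ} (k : Fin r → ℕ) (n : ℕ) : Fin n → Fin (r + 2) → ℂ :=
  fun i => Fin.cons 1 (pt (ext k) r (((i : ℕ) + 1 : ℝ) : ℂ))

/-- The parameters. -/
noncomputable def par (n : ℕ) : Fin n → ℝ := fun i => (i : ℕ) + 1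

theorem par_injective (n : ℕ) : Function.Injective (par n) := by
  intro i j h
  have h1 : ((i : ℕ) : ℝ) + 1 = ((j : ℕ) : ℝ) + 1 := h
  have h2 : ((i : ℕ) : ℝ) = ((j : ℕ) : ℝ) := by linarith
  exact Fin.ext (by exact_mod_cast h2)

theorem par_pos (n : ℕ) (i : Fin n) : 0 < par n i := by
  unfold par; positivity

theorem finrank_forms_le {r : ℕ} (k : Fin r → ℕ) (n d : ℕ) (m : Fin n → ℕ) :
    Module.finrank ℂ (forms (r + 2) d m (pts k n)) ≤
      Module.finrank ℂ (FF (ext k) r id (d : ℤ) m (par n)) := by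
  have : Fact (IsCost id) := ⟨isCost_id⟩
  have hfin1 : Module.Finite ℂ (FF (ext k) r id (d : ℤ) m (par n)) :=
    Submodule.finiteDimensional_of_le FF_le_W
  let ψ : forms (r + 2) d m (pts k n) →ₗ[ℂ] FF (ext k) r id (d : ℤ) m (par n) :=
    (dehom r).toLinearMap.restrict
      (fun F hF => ⟨dehom_mem_W hF.1, fun i => vanishes_dehom (hF.2 i)⟩)
  refine LinearMap.finrank_le_finrank_of_injective (f := ψ) ?_
  rintro ⟨F, hF⟩ ⟨G, hG⟩ h
  have h1 : dehom r F = dehom r G := congrArg Subtype.val h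
  apply Subtype.ext
  show F = G
  ext β
  by_cases hβ : β.degree = d
  · rw [← coeff_dehom hF.1 β hβ, ← coeff_dehom hG.1 β hβ, h1]
  · have h2 : ∀ H : MvPolynomial (Fin (r + 2)) ℂ, H.IsHomogeneous d → coeff β H = 0 := by
      intro H hH
      by_contra hne
      exact hβ ((isHomogeneous_iff H).mp hH β (mem_support_iff.mpr hne))
    rw [h2 F hF.1, h2 G hG.1]

theorem main (r n d : ℕ) (k : Fin r → ℕ) (hk : ∀ j, 1 ≤ k j) (m : Fin n → ℕ) :
    ForGeneral (r + 2) n (fun p => Module.finrank ℂ (forms (r + 2) d m p) ≤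
      ∑ l : Fin r → Fin (d + 1), (cap k ((d : ℤ) - ∑ j, (k j : ℤ) * (l j : ℕ)) -
        ∑ i, (m i - ∑ j, (l j : ℕ)))) ∧
    ((∀ l : Fin r → ℕ, cap k ((d : ℤ) - ∑ j, (k j : ℤ) * l j) ≤ ∑ i, (m i - ∑ j, l j)) →
      ForGeneral (r + 2) n (fun p => forms (r + 2) d m p = ⊥)) ∧
    ((∀ l : Fin r → ℕ, ∑ i, (m i - ∑ j, l j) ≤ cap k ((d : ℤ) - ∑ j, (k j : ℤ) * l j)) →
      ForGeneral (r + 2) n (fun p => Module.finrank ℂ (forms (r + 2) d m p) +
        ∑ i, (m i + r).choose (r + 1) = (d + (r + 1)).choose (r + 1))) := by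
  classical
  have h1 := main_le (one_le_ext hk) (par_injective n) (par_pos n) (d + 1) r id isCost_id
    (d : ℤ) m (by push_cast; linarith)
  simp only [ext_coe, N_ext hk] at h1
  have h2 := (finrank_forms_le k n d m).trans h1
  have h3 := forms_semicontinuous (pts k n) _ h2
  refine ⟨h3, fun hl => ?_, fun hl => ?_⟩
  · refine h3.mono fun p hp => ?_
    have h4 : ∑ l : Fin r → Fin (d + 1), (cap k ((d : ℤ) - ∑ j, (k j : ℤ) * (l j : ℕ)) -
        ∑ i, (m i - ∑ j, (l j : ℕ))) = 0 := by
      apply Finset.sum_eq_zero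
      intro l _
      exact Nat.sub_eq_zero_of_le (hl (fun j => (l j : ℕ)))
    rw [h4] at hp
    have : Module.Finite ℂ (forms (r + 2) d m p) := inferInstance
    exact Submodule.finrank_eq_zero.mp (Nat.le_zero.mp hp)
  · have h4 := main_B (one_le_ext hk) (par_injective n) (par_pos n) r id isCost_id (d + 1) (d : ℤ)
      m (by push_cast; linarith) (by
        intro l
        rw [N_ext hk]
        simp only [ext_coe]
        exact hl l)
    have h5 := finrank_W_id_le r d
    have h6 := finrank_forms_le k n d m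
    have h7 := forms_semicontinuous (n := r + 2) (d := d) (m := m) (pts k n)
      ((d + (r + 1)).choose (r + 1) - ∑ i, (m i + r).choose (r + 1)) (by omega)
    refine (h7.and (forGeneral_ne_zero (by omega))).mono fun p hp => ?_
    have h8 : (d + (r + 1)).choose (r + 1) ≤
        Module.finrank ℂ (forms (r + 2) d m p) + ∑ i, (m i + (r + 1) - 1).choose (r + 1) :=
      finrank_forms_ge (r + 1) d m p hp.2
    have h9 : ∀ i, m i + (r + 1) - 1 = m i + r := fun i => by omega
    simp only [h9] at h8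
    have h10 := hp.1
    omega

end Pool.Agent.H938R2.Elim
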